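import Pool.Agent.Helper2.PG.Peierls
import Pool.Agent.Helper79.GR.DD

/-!
# PG+ (MP_13b103): *-clusters of closed edges: measurability, translations, monotonicity
-/

set_option autoImplicit false

namespace Pool.Agent.Helper2.PG

open Pool.Agent.Helper79.GR MeasureTheory ProbabilityTheory

variable {d : ℕ}

/-! ## elementary facts -/

theorem Clu.self {cl : Edge d → Prop} {e : Edge d} (h : cl e) : e ∈ Clu cl e :=
  ⟨h, Relation.ReflTransGen.refl⟩

theorem Clu.mono {cl cl' : Edge d → Prop} (h : ∀ f, cl f → cl' f) (e : Edge d) :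
    Clu cl e ⊆ Clu cl' e := by
  rintro f ⟨h1, h2⟩
  refine ⟨h e h1, ?_⟩
  clear h1
  induction h2 with
  | refl => exact Relation.ReflTransGen.refl
  | tail _ hbc ih => exact Relation.ReflTransGen.tail ih ⟨h _ hbc.1, hbc.2⟩

theorem Rel.trans {cl : Edge d → Prop} {e f g : Edge d} (h1 : Rel cl e f) (h2 : Rel cl f g) :
    Rel cl e g := Relation.ReflTransGen.trans h1 h2

theorem Rel.symm' {cl : Edge d → Prop} {e f : Edge d} (he : cl e) (h : Rel cl e f) :
    Rel cl f e := by
  have key : cl f ∧ Rel cl f e := by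
    induction h with
    | refl => exact ⟨he, Relation.ReflTransGen.refl⟩
    | tail _ hbc ih => exact ⟨hbc.1, Relation.ReflTransGen.head ⟨ih.1, hbc.2.symm⟩ ih.2⟩
  exact key.2

/-- the clusters are the classes of an equivalence relation -/
theorem Clu.eq_of_mem {cl : Edge d → Prop} {e f : Edge d} (h : f ∈ Clu cl e) :
    Clu cl f = Clu cl e := by
  have h1 := h.1
  have h2 := Clu.closed h
  ext g
  constructor
  · rintro ⟨_, h4⟩
    exact ⟨h1, h.2.trans h4⟩
  · rintro ⟨_, h4⟩
    exact ⟨h2, (Rel.symm' h1 h.2).trans h4⟩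

/-- a closed *-neighbour of a cluster belongs to it -/
theorem Clu.of_adj {cl : Edge d → Prop} {e f g : Edge d} (h : f ∈ Clu cl e) (hg : cl g)
    (ha : Adj2 f g) : g ∈ Clu cl e := ⟨h.1, Relation.ReflTransGen.tail h.2 ⟨hg, ha⟩⟩

theorem Clu.eq_empty {cl : Edge d → Prop} {e : Edge d} (h : ¬ cl e) : Clu cl e = ∅ := by
  ext f
  simp only [Set.mem_empty_iff_false, iff_false]
  intro hf
  exact h hf.1

/-! ## measurability -/

/-- reachable in at most `n` steps -/
def RR (cl : Edge d → Prop) (e : Edge d) : ℕ → Edge d → Prop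
  | 0, f => f = e
  | n + 1, f => RR cl e n f ∨ ∃ g, RR cl e n g ∧ cl f ∧ Adj2 g f

theorem rel_iff {cl : Edge d → Prop} {e f : Edge d} : Rel cl e f ↔ ∃ n, RR cl e n f := by
  constructor
  · intro h
    induction h with
    | refl => exact ⟨0, rfl⟩
    | tail _ hbc ih =>
      obtain ⟨n, hn⟩ := ih
      exact ⟨n + 1, Or.inr ⟨_, hn, hbc⟩⟩
  · rintro ⟨n, hn⟩
    induction n generalizing f with
    | zero =>
      have h : f = e := hn
      rw [h]
      exact Relation.ReflTransGen.refl
    | succ n ih =>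
      rcases hn with hn | ⟨g, hg, hf⟩
      · exact ih hn
      · exact Relation.ReflTransGen.tail (ih hg) hf

instance : Countable (Edge d) := Subtype.countable

theorem measurableSet_RR {C : Set ℝ} (hC : MeasurableSet C) (e : Edge d) (n : ℕ) (f : Edge d) :
    MeasurableSet {c : Edge d → ℝ | RR (fun g => c g ∈ C) e n f} := by
  induction n generalizing f with
  | zero =>
    by_cases h : f = e
    · have : {c : Edge d → ℝ | RR (fun g => c g ∈ C) e 0 f} = Set.univ := by
        ext c
        simp [RR, h]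
      rw [this]
      exact MeasurableSet.univ
    · have : {c : Edge d → ℝ | RR (fun g => c g ∈ C) e 0 f} = ∅ := by
        ext c
        simp [RR, h]
      rw [this]
      exact MeasurableSet.empty
  | succ n ih =>
    have : {c : Edge d → ℝ | RR (fun g => c g ∈ C) e (n + 1) f} =
        {c | RR (fun g => c g ∈ C) e n f} ∪
          ⋃ g : {g : Edge d // Adj2 g f}, {c | RR (fun g => c g ∈ C) e n g} ∩ {c | c f ∈ C} := by
      ext c
      simp only [Set.mem_union, Set.mem_iUnion, Set.mem_inter_iff, Set.mem_ofPred_eq]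
      constructor
      · rintro (h | ⟨g, h1, h2, h3⟩)
        · exact Or.inl h
        · exact Or.inr ⟨⟨g, h3⟩, h1, h2⟩
      · rintro (h | ⟨⟨g, h3⟩, h1, h2⟩)
        · exact Or.inl h
        · exact Or.inr ⟨g, h1, h2, h3⟩
    rw [this]
    exact (ih f).union (MeasurableSet.iUnion (fun g => (ih g).inter (measurable_pi_apply f hC)))

theorem measurableSet_mem_Clu {C : Set ℝ} (hC : MeasurableSet C) (e f : Edge d) :
    MeasurableSet {c : Edge d → ℝ | f ∈ Clu (fun g => c g ∈ C) e} := by
  have : {c : Edge d → ℝ | f ∈ Clu (fun g => c g ∈ C) e} =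
      {c | c e ∈ C} ∩ ⋃ n, {c | RR (fun g => c g ∈ C) e n f} := by
    ext c
    simp only [Set.mem_inter_iff, Set.mem_iUnion, Set.mem_ofPred_eq]
    constructor
    · rintro ⟨h1, h2⟩
      exact ⟨h1, rel_iff.1 h2⟩
    · rintro ⟨h1, h2⟩
      exact ⟨h1, rel_iff.2 h2⟩
  rw [this]
  exact (measurable_pi_apply e hC).inter (MeasurableSet.iUnion (fun n => measurableSet_RR hC e n f))

/-- the event that the cluster is the given finite set -/
theorem measurableSet_Clu_eq {C : Set ℝ} (hC : MeasurableSet C) (e : Edge d)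
    (F : Finset (Edge d)) :
    MeasurableSet {c : Edge d → ℝ | Clu (fun g => c g ∈ C) e = ↑F} := by
  have : {c : Edge d → ℝ | Clu (fun g => c g ∈ C) e = ↑F} =
      ⋂ f : Edge d, (if f ∈ F then {c | f ∈ Clu (fun g => c g ∈ C) e} else
        {c | f ∈ Clu (fun g => c g ∈ C) e}ᶜ) := by
    ext c
    simp only [Set.mem_iInter, Set.mem_ofPred_eq]
    constructor
    · intro h f
      by_cases hf : f ∈ F
      · rw [if_pos hf]
        show f ∈ Clu (fun g => c g ∈ C) e
        rw [h]
        exact hf
      · rw [if_neg hf]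
        show f ∉ Clu (fun g => c g ∈ C) e
        rw [h]
        exact hf
    · intro h
      ext f
      have h1 := h f
      by_cases hf : f ∈ F
      · rw [if_pos hf] at h1
        exact ⟨fun _ => hf, fun _ => h1⟩
      · rw [if_neg hf] at h1
        exact ⟨fun h2 => absurd h2 h1, fun h2 => absurd h2 hf⟩
  rw [this]
  refine MeasurableSet.iInter (fun f => ?_)
  split_ifs
  · exact measurableSet_mem_Clu hC e f
  · exact (measurableSet_mem_Clu hC e f).compl

/-- the number of edges of the cluster (`0` if infinite) is measurable -/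
theorem measurable_ncard {C : Set ℝ} (hC : MeasurableSet C) (e : Edge d) :
    Measurable (fun c : Edge d → ℝ => (Clu (fun g => c g ∈ C) e).ncard) := by
  have key : ∀ n : ℕ, 0 < n →
      MeasurableSet {c : Edge d → ℝ | (Clu (fun g => c g ∈ C) e).ncard = n} := by
    intro n hn
    have : {c : Edge d → ℝ | (Clu (fun g => c g ∈ C) e).ncard = n} =
        ⋃ F : {F : Finset (Edge d) // F.card = n}, {c | Clu (fun g => c g ∈ C) e = ↑F.1} := by
      ext c
      simp only [Set.mem_iUnion, Set.mem_ofPred_eq]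
      constructor
      · intro h
        have h1 : (Clu (fun g => c g ∈ C) e).Finite := Set.finite_of_ncard_pos (by omega)
        refine ⟨⟨h1.toFinset, ?_⟩, h1.coe_toFinset.symm⟩
        rw [← Set.ncard_eq_toFinset_card _ h1, h]
      · rintro ⟨⟨F, hF⟩, h⟩
        rw [h, Set.ncard_coe_finset, hF]
    rw [this]
    exact MeasurableSet.iUnion (fun F => measurableSet_Clu_eq hC e F.1)
  refine measurable_to_countable' (fun n => ?_)
  rcases Nat.eq_zero_or_pos n with h | h
  · subst h
    have : (fun c : Edge d → ℝ => (Clu (fun g => c g ∈ C) e).ncard) ⁻¹' {0} =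
        (⋃ n : {n : ℕ // 0 < n}, {c : Edge d → ℝ | (Clu (fun g => c g ∈ C) e).ncard = n.1})ᶜ := by
      ext c
      simp only [Set.mem_preimage, Set.mem_singleton_iff, Set.mem_compl_iff, Set.mem_iUnion,
        Set.mem_ofPred_eq]
      constructor
      · rintro h ⟨⟨n, hn⟩, h1⟩
        simp only at h1
        omega
      · intro h
        by_contra hc
        exact h ⟨⟨_, Nat.pos_of_ne_zero hc⟩, rfl⟩
    rw [this]
    exact (MeasurableSet.iUnion (fun n : {n : ℕ // 0 < n} => key n.1 n.2)).compl
  · exact key n h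

/-! ## translations -/

theorem InSq_sh (v x : V d) (i j : Fin d) (e : Edge d) :
    InSq (x + v) i j (sh v e) ↔ InSq x i j e := by
  have h1 : ∀ (y : V d) (s : St d), sh v e = ed (y + v) s ↔ e = ed y s := by
    intro y s
    rw [← sh_ed]
    exact (sh_injective v).eq_iff
  unfold InSq
  rw [h1, h1, add_right_comm x v (ee i), add_right_comm x v (ee j), h1, h1]

theorem Adj2_sh (v : V d) (e f : Edge d) : Adj2 (sh v e) (sh v f) ↔ Adj2 e f := by
  constructor
  · rintro ⟨x, i, j, hij, h1, h2⟩
    have e1 : x = (x - v) + v := by abel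
    rw [e1, InSq_sh] at h1 h2
    exact ⟨x - v, i, j, hij, h1, h2⟩
  · rintro ⟨x, i, j, hij, h1, h2⟩
    exact ⟨x + v, i, j, hij, (InSq_sh _ _ _ _ _).2 h1, (InSq_sh _ _ _ _ _).2 h2⟩

theorem sh_neg (v : V d) (e : Edge d) : sh v (sh (-v) e) = e := by
  obtain ⟨x, i, rfl⟩ := exists_ed e
  rw [sh_ed, sh_ed, neg_add_cancel_right]

theorem Rel_sh {cl : Edge d → Prop} (v : V d) (e f : Edge d) :
    Rel (fun g => cl (sh v g)) e f ↔ Rel cl (sh v e) (sh v f) := by
  constructor
  · intro h
    induction h with
    | refl => exact Relation.ReflTransGen.refl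
    | tail _ hbc ih => exact Relation.ReflTransGen.tail ih ⟨hbc.1, (Adj2_sh _ _ _).2 hbc.2⟩
  · intro h
    have key : ∀ g, Rel cl (sh v e) g → ∀ f, sh v f = g → Rel (fun g => cl (sh v g)) e f := by
      intro g hg
      induction hg with
      | refl =>
        intro f hf
        rw [sh_injective v hf]
        exact Relation.ReflTransGen.refl
      | tail _ hbc ih =>
        rename_i b c _
        intro f hf
        have h1 := ih (sh (-v) b) (sh_neg v b)
        refine Relation.ReflTransGen.tail h1 ⟨?_, ?_⟩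
        · show cl (sh v f)
          rw [hf]
          exact hbc.1
        · rw [← Adj2_sh v, sh_neg, hf]
          exact hbc.2
    exact key _ h f rfl

/-- the cluster of the translated configuration -/
theorem mem_Clu_sh {cl : Edge d → Prop} (v : V d) (e f : Edge d) :
    f ∈ Clu (fun g => cl (sh v g)) e ↔ sh v f ∈ Clu cl (sh v e) := by
  unfold Clu
  exact and_congr Iff.rfl (Rel_sh v e f)

theorem image_Clu_sh {cl : Edge d → Prop} (v : V d) (e : Edge d) :
    sh v '' Clu (fun g => cl (sh v g)) e = Clu cl (sh v e) := by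
  ext f
  constructor
  · rintro ⟨g, hg, rfl⟩
    exact (mem_Clu_sh v e g).1 hg
  · intro hf
    refine ⟨sh (-v) f, (mem_Clu_sh v e _).2 ?_, sh_neg v f⟩
    rw [sh_neg]
    exact hf

theorem ncard_Clu_sh {cl : Edge d → Prop} (v : V d) (e : Edge d) :
    (Clu (fun g => cl (sh v g)) e).ncard = (Clu cl (sh v e)).ncard := by
  rw [← image_Clu_sh, Set.ncard_image_of_injective _ (sh_injective v)]

end Pool.Agent.Helper2.PG
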