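import Mathlib

/-!
# PG+ (MP_13b103), block DET: closed cochains on `ℤ^d` are exact
-/

set_option autoImplicit false

namespace Pool.Agent.Helper2.PG

variable {G : Type*} [AddCommGroup G]

/-- an antiderivative of a function on the integers -/
def anti (f : ℤ → G) (k : ℤ) : G :=
  ∑ m ∈ Finset.range k.toNat, f m - ∑ m ∈ Finset.range (-k).toNat, f (-(m : ℤ) - 1)

theorem anti_succ (f : ℤ → G) (k : ℤ) : anti f (k + 1) = anti f k + f k := by
  unfold anti
  rcases le_or_gt 0 k with h | h
  · obtain ⟨n, rfl⟩ := Int.eq_ofNat_of_zero_le h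
    have h1 : ((n : ℤ) + 1).toNat = n + 1 := by omega
    have h2 : (-((n : ℤ) + 1)).toNat = 0 := by omega
    have h3 : (-(n : ℤ)).toNat = 0 := by omega
    have h4 : ((n : ℤ)).toNat = n := by omega
    rw [h1, h2, h3, h4, Finset.sum_range_succ]
    simp
  · obtain ⟨n, rfl⟩ : ∃ n : ℕ, k = -(n : ℤ) - 1 := ⟨(-k - 1).toNat, by omega⟩
    have h1 : (-(n : ℤ) - 1 + 1).toNat = 0 := by omega
    have h2 : (-(-(n : ℤ) - 1 + 1)).toNat = n := by omega
    have h3 : (-(n : ℤ) - 1).toNat = 0 := by omega
    have h4 : (-(-(n : ℤ) - 1)).toNat = n + 1 := by omega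
    rw [h1, h2, h3, h4, Finset.sum_range_succ]
    simp

/-- the coordinate vectors -/
def ee {d : ℕ} (i : Fin d) : Fin d → ℤ := Pi.single i 1

/-- closed cochains -/
def Closed {d : ℕ} (φ : (Fin d → ℤ) → Fin d → G) : Prop :=
  ∀ x i j, i ≠ j → φ x i + φ (x + ee i) j = φ x j + φ (x + ee j) i

theorem update_add_ee_self {d : ℕ} (x : Fin d → ℤ) (j : Fin d) (k : ℤ) :
    Function.update (x + ee j) j k = Function.update x j k := by
  ext l
  by_cases h : l = j
  · subst h
    simp
  · simp [Function.update_of_ne h, ee, h]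

theorem update_add_ee {d : ℕ} (x : Fin d → ℤ) {i j : Fin d} (hij : i ≠ j) (k : ℤ) :
    Function.update (x + ee i) j k = Function.update x j k + ee i := by
  ext l
  by_cases h : l = j
  · subst h
    simp [ee, hij.symm]
  · simp [Function.update_of_ne h]

theorem exact_on {d : ℕ} (φ : (Fin d → ℤ) → Fin d → G) (hφ : Closed φ) (I : Finset (Fin d)) :
    ∃ ψ : (Fin d → ℤ) → G, ∀ i ∈ I, ∀ x, ψ (x + ee i) = ψ x + φ x i := by
  classical
  induction I using Finset.induction_on with
  | empty => exact ⟨0, fun i hi => absurd hi (Finset.notMem_empty i)⟩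
  | insert j I hj ih =>
    obtain ⟨ψ, hψ⟩ := ih
    set φ' : (Fin d → ℤ) → Fin d → G := fun x i => φ x i - (ψ (x + ee i) - ψ x) with hφ'
    have h0 : ∀ i ∈ I, ∀ x, φ' x i = 0 := by
      intro i hi x
      simp only [hφ', hψ i hi x]
      abel
    have hc : Closed φ' := by
      intro x i j hij
      have h1 := hφ x i j hij
      have h2 : x + ee i + ee j = x + ee j + ee i := by abel
      simp only [hφ']
      rw [h2]
      have h3 : φ x i - (ψ (x + ee i) - ψ x) + (φ (x + ee i) j - (ψ (x + ee j + ee i) - ψ (x + ee i)))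
        = (φ x i + φ (x + ee i) j) - ψ (x + ee j + ee i) + ψ x := by abel
      rw [h3, h1]
      abel
    have hinv : ∀ i ∈ I, ∀ x, φ' (x + ee i) j = φ' x j := by
      intro i hi x
      have hij : i ≠ j := fun h => hj (h ▸ hi)
      have h1 := hc x i j hij
      rw [h0 i hi x, h0 i hi (x + ee j), zero_add, add_zero] at h1
      exact h1
    refine ⟨fun x => ψ x + anti (fun k => φ' (Function.update x j k) j) (x j), ?_⟩
    intro i hi x
    rcases Finset.mem_insert.1 hi with rfl | hi
    · have h1 : (x + ee i) i = x i + 1 := by simp [ee]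
      simp only [update_add_ee_self, h1]
      rw [anti_succ, Function.update_eq_self]
      simp only [hφ']
      abel
    · have hij : i ≠ j := fun h => hj (h ▸ hi)
      have h1 : (x + ee i) j = x j := by simp [ee, hij.symm]
      simp only [update_add_ee x hij, hinv i hi, h1, hψ i hi x]
      abel

/-- closed cochains on `ℤ^d` are exact -/
theorem exact {d : ℕ} (φ : (Fin d → ℤ) → Fin d → G) (hφ : Closed φ) :
    ∃ ψ : (Fin d → ℤ) → G, ∀ i x, ψ (x + ee i) = ψ x + φ x i := by
  obtain ⟨ψ, hψ⟩ := exact_on φ hφ Finset.univ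
  exact ⟨ψ, fun i x => hψ i (Finset.mem_univ i) x⟩

end Pool.Agent.Helper2.PG
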