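import Pool.Agent.Helper79.GR.Defs
import Pool.Agent.Helper2.PG.Poin

/-!
# PG+ (MP_13b103), block DET: detours around *-clusters of edges

Two edges are *-adjacent if they lie in a common unit square.  `detour_gen`: if `u` and `v` are
joined by a path which avoids the set `Q` of edges, then for every path `g` from `u` to `v` there is
a path from `u` to `v` which avoids `Q` and uses only edges of `g` and edges in unit squares which
meet `Q`.
-/

set_option autoImplicit false

namespace Pool.Agent.Helper2.PG

open Pool.Agent.Helper79.GR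

variable {d : ℕ}

/-- the edge `e` belongs to the unit square with the corner `x` and the directions `i`, `j` -/
def InSq (x : V d) (i j : Fin d) (e : Edge d) : Prop :=
  e = ed x (i, true) ∨ e = ed (x + ee i) (j, true) ∨ e = ed x (j, true) ∨
    e = ed (x + ee j) (i, true)

/-- *-adjacent edges: two edges of one unit square -/
def Adj2 (e f : Edge d) : Prop := ∃ (x : V d) (i j : Fin d), i ≠ j ∧ InSq x i j e ∧ InSq x i j f

/-- `f` is reached from `e` by *-adjacent closed edges -/
def Rel (cl : Edge d → Prop) (e f : Edge d) : Prop :=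
  Relation.ReflTransGen (fun a b => cl b ∧ Adj2 a b) e f

/-- the *-cluster of closed edges of the edge `e` (empty if `e` is open) -/
def Clu (cl : Edge d → Prop) (e : Edge d) : Set (Edge d) := {f | cl e ∧ Rel cl e f}

theorem Adj2.symm {e f : Edge d} (h : Adj2 e f) : Adj2 f e := by
  obtain ⟨x, i, j, hij, h1, h2⟩ := h
  exact ⟨x, i, j, hij, h2, h1⟩

theorem sv_true (i : Fin d) : sv (i, true) = ee i := by
  simp [sv, ee]

theorem sv_false (i : Fin d) : sv (i, false) = -ee i := by
  ext l
  by_cases h : l = i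
  · subst h
    simp [sv, ee]
  · simp [sv, ee, h]

theorem ed_false (x : V d) (i : Fin d) : ed x (i, false) = ed (x - ee i) (i, true) := by
  apply Subtype.ext
  show s(x, x + sv (i, false)) = s(x - ee i, x - ee i + sv (i, true))
  rw [sv_true, sv_false, Sym2.eq_swap, sub_add_cancel, sub_eq_add_neg]

open Classical in
/-- the indicator of a set, modulo `2` -/
noncomputable def ind (A : V d → Prop) (x : V d) : ZMod 2 := if A x then 1 else 0

open Classical in
/-- the cochain which counts the edges of `Q` across the cut `A`, modulo `2` -/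
noncomputable def phi (Q : Edge d → Prop) (A : V d → Prop) (x : V d) (i : Fin d) : ZMod 2 :=
  if Q (ed x (i, true)) then ind A x + ind A (x + ee i) else 0

theorem zadd (a : ZMod 2) : a + a = 0 := by
  revert a
  decide

theorem phi_closed (Q : Edge d → Prop) (A : V d → Prop)
    (hA : ∀ e f, Q f → Adj2 e f → ¬ Q e → ∀ x i, e = ed x (i, true) →
      ind A x = ind A (x + ee i)) : Closed (phi Q A) := by
  classical
  intro x i j hij
  by_cases h : ∃ f, InSq x i j f ∧ Q f
  · obtain ⟨f, hf, hQ⟩ := h
    have key : ∀ y l, InSq x i j (ed y (l, true)) → phi Q A y l = ind A y + ind A (y + ee l) := by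
      intro y l hy
      unfold phi
      by_cases hq : Q (ed y (l, true))
      · rw [if_pos hq]
      · rw [if_neg hq, hA _ f hQ ⟨x, i, j, hij, hy, hf⟩ hq y l rfl, zadd]
    rw [key x i (Or.inl rfl), key (x + ee i) j (Or.inr (Or.inl rfl)),
      key x j (Or.inr (Or.inr (Or.inl rfl))), key (x + ee j) i (Or.inr (Or.inr (Or.inr rfl)))]
    have h1 : x + ee i + ee j = x + ee j + ee i := by abel
    rw [h1]
    have h2 : ∀ a b c e : ZMod 2, a + b + (b + e) = a + c + (c + e) := by decide
    exact h2 _ _ _ _
  · have key : ∀ y l, InSq x i j (ed y (l, true)) → phi Q A y l = 0 := by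
      intro y l hy
      unfold phi
      rw [if_neg]
      intro hq
      exact h ⟨_, hy, hq⟩
    rw [key x i (Or.inl rfl), key (x + ee i) j (Or.inr (Or.inl rfl)),
      key x j (Or.inr (Or.inr (Or.inl rfl))), key (x + ee j) i (Or.inr (Or.inr (Or.inr rfl)))]

theorem walk_psi {ψ : V d → ZMod 2} {Q : Edge d → Prop} {A : V d → Prop}
    (hψ : ∀ i x, ψ (x + ee i) = ψ x + phi Q A x i) (s : List (St d)) (u : V d)
    (hs : ∀ e ∈ eds u s, ¬ Q e) : ψ (pos u s) = ψ u := by
  induction s generalizing u with
  | nil => rfl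
  | cons a s ih =>
    have h1 : ψ (pos (u + sv a) s) = ψ (u + sv a) :=
      ih (u + sv a) (fun e he => hs e (List.mem_cons_of_mem _ he))
    show ψ (pos (u + sv a) s) = ψ u
    rw [h1]
    have h2 : ¬ Q (ed u a) := hs _ List.mem_cons_self
    rcases a with ⟨i, _ | _⟩
    · rw [ed_false] at h2
      have h3 := hψ i (u - ee i)
      rw [sub_add_cancel] at h3
      rw [sv_false, ← sub_eq_add_neg, h3]
      unfold phi
      rw [if_neg h2, add_zero]
    · rw [sv_true, hψ]
      unfold phi
      rw [if_neg h2, add_zero]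

theorem walk_psi' {ψ : V d → ZMod 2} {Q : Edge d → Prop} {A : V d → Prop}
    (hψ : ∀ i x, ψ (x + ee i) = ψ x + phi Q A x i) (s : List (St d)) (u : V d)
    (hs : ∀ e ∈ eds u s, ¬ Q e → ∀ x i, e = ed x (i, true) → ind A x = ind A (x + ee i)) :
    ψ (pos u s) + ind A (pos u s) = ψ u + ind A u := by
  induction s generalizing u with
  | nil => rfl
  | cons a s ih =>
    have h1 := ih (u + sv a) (fun e he => hs e (List.mem_cons_of_mem _ he))
    show ψ (pos (u + sv a) s) + ind A (pos (u + sv a) s) = ψ u + ind A u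
    rw [h1]
    have h2 := hs (ed u a) List.mem_cons_self
    have h4 : ∀ a b c : ZMod 2, a + (b + c) + c = a + b := by decide
    have h5 : ∀ a b c : ZMod 2, a + b = a + (b + c) + c := by decide
    rcases a with ⟨i, _ | _⟩
    · rw [ed_false] at h2
      have h3 := hψ i (u - ee i)
      rw [sub_add_cancel] at h3
      rw [sv_false, ← sub_eq_add_neg, h3]
      unfold phi
      by_cases hq : Q (ed (u - ee i) (i, true))
      · rw [if_pos hq, sub_add_cancel]
        exact h5 _ _ _
      · have h6 := h2 hq (u - ee i) i rfl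
        rw [sub_add_cancel] at h6
        rw [if_neg hq, add_zero, h6]
    · rw [sv_true, hψ]
      unfold phi
      by_cases hq : Q (ed u (i, true))
      · rw [if_pos hq]
        exact h4 _ _ _
      · have h6 := h2 hq u i rfl
        rw [if_neg hq, add_zero, h6]

theorem pos_append (u : V d) (s t : List (St d)) : pos u (s ++ t) = pos (pos u s) t := by
  induction s generalizing u with
  | nil => rfl
  | cons a s ih => exact ih (u + sv a)

theorem mem_eds_append (u : V d) (s t : List (St d)) (e : Edge d) :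
    e ∈ eds u (s ++ t) ↔ e ∈ eds u s ∨ e ∈ eds (pos u s) t := by
  induction s generalizing u with
  | nil => simp [eds, pos]
  | cons a s ih =>
    show e ∈ ed u a :: eds (u + sv a) (s ++ t) ↔
      e ∈ ed u a :: eds (u + sv a) s ∨ e ∈ eds (pos (u + sv a) s) t
    rw [List.mem_cons, List.mem_cons, ih (u + sv a), or_assoc]

/-- detours, general form: `Q` is any set of edges -/
theorem detour_gen (Q : Edge d → Prop) (u : V d) (g p : List (St d)) (hp : pos u p = pos u g)
    (hQ : ∀ e ∈ eds u p, ¬ Q e) :
    ∃ s : List (St d), pos u s = pos u g ∧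
      ∀ e ∈ eds u s, ¬ Q e ∧ (e ∈ eds u g ∨ ∃ f, Q f ∧ Adj2 e f) := by
  classical
  set E : Edge d → Prop := fun e => ¬ Q e ∧ (e ∈ eds u g ∨ ∃ f, Q f ∧ Adj2 e f) with hE
  set A : V d → Prop := fun v => ∃ s : List (St d), pos u s = v ∧ ∀ e ∈ eds u s, E e with hAdef
  have hstep : ∀ x (a : St d), E (ed x a) → A x → A (x + sv a) := by
    rintro x a hxa ⟨s, hs, hse⟩
    refine ⟨s ++ [a], ?_, ?_⟩
    · rw [pos_append, hs]
      rfl
    · intro e he
      rw [mem_eds_append, hs] at he
      rcases he with he | he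
      · exact hse e he
      · have h1 : e ∈ [ed x a] := he
        rw [List.mem_singleton] at h1
        rw [h1]
        exact hxa
  have hind : ∀ e, E e → ∀ x i, e = ed x (i, true) → ind A x = ind A (x + ee i) := by
    rintro e he x i rfl
    have h1 : A x ↔ A (x + ee i) := by
      constructor
      · intro hx
        have := hstep x (i, true) he hx
        rwa [sv_true] at this
      · intro hx
        have h2 : ed (x + ee i) (i, false) = ed x (i, true) := by
          rw [ed_false, add_sub_cancel_right]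
        have := hstep (x + ee i) (i, false) (h2 ▸ he) hx
        rwa [sv_false, add_neg_cancel_right] at this
    unfold ind
    simp only [h1]
  have hcl : Closed (phi Q A) := by
    apply phi_closed
    intro e f hf hef hq x i hx
    exact hind e ⟨hq, Or.inr ⟨f, hf, hef⟩⟩ x i hx
  obtain ⟨ψ, hψ⟩ := exact (phi Q A) hcl
  have h1 := walk_psi hψ p u hQ
  have h2 := walk_psi' hψ g u (fun e he hq x i hx => hind e ⟨hq, Or.inl he⟩ x i hx)
  rw [hp] at h1
  rw [h1] at h2
  have h3 : ind A (pos u g) = ind A u := add_left_cancel h2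
  have h4 : A u := ⟨[], rfl, fun e he => absurd he List.not_mem_nil⟩
  have h5 : A (pos u g) := by
    by_contra h
    unfold ind at h3
    rw [if_neg h, if_pos h4] at h3
    exact zero_ne_one h3
  obtain ⟨s, hs, hse⟩ := h5
  exact ⟨s, hs, hse⟩

/-- detours around the closed *-clusters which are met by the path `g` -/
theorem detour (cl : Edge d → Prop) (u : V d) (g p : List (St d)) (hp : pos u p = pos u g)
    (hcl : ∀ e ∈ eds u p, ¬ cl e) :
    ∃ s : List (St d), pos u s = pos u g ∧
      ∀ e ∈ eds u s, ¬ cl e ∧ (e ∈ eds u g ∨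
        ∃ f0 ∈ eds u g, ∃ f ∈ Clu cl f0, Adj2 e f) := by
  have hQ : ∀ f0 f, f ∈ Clu cl f0 → cl f := by
    rintro f0 f ⟨h0, h1⟩
    rcases Relation.ReflTransGen.cases_tail h1 with h | ⟨c, _, h, _⟩
    · rw [h]
      exact h0
    · exact h
  obtain ⟨s, hs, hse⟩ := detour_gen (fun f => ∃ f0 ∈ eds u g, f ∈ Clu cl f0) u g p hp
    (fun e he ⟨f0, _, hf⟩ => hcl e he (hQ f0 e hf))
  refine ⟨s, hs, fun e he => ?_⟩
  obtain ⟨h1, h2⟩ := hse e he
  rcases h2 with h2 | ⟨f, ⟨f0, hf0, hf⟩, hef⟩
  · refine ⟨fun hc => h1 ⟨e, h2, hc, Relation.ReflTransGen.refl⟩, Or.inl h2⟩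
  · refine ⟨fun hc => h1 ⟨f0, hf0, hf.1, ?_⟩, Or.inr ⟨f0, hf0, f, hf, hef⟩⟩
    exact Relation.ReflTransGen.tail hf.2 ⟨hc, hef.symm⟩

end Pool.Agent.Helper2.PG
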