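import Pool.Agent.Helper2.PG.Det

/-!
# PG+ (MP_13b103), block DET: Peierls count of *-clusters

`peierls`: the *-cluster of closed edges of a fixed edge has at least `n` edges with probability at
most `(Δ ^ 2 * ε) ^ n`, if every edge is closed with probability at most `ε`; `Δ = 3 ^ d * d`.
-/

set_option autoImplicit false

namespace Pool.Agent.Helper2.PG

open Pool.Agent.Helper79.GR MeasureTheory ProbabilityTheory

variable {d : ℕ}

/-! ## *-neighbours of an edge -/

theorem ee_ne_neg (i j : Fin d) : ee i + ee j ≠ 0 := by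
  intro h
  have h1 := congrFun h i
  simp only [Pi.add_apply, Pi.zero_apply, ee, Pi.single_eq_same] at h1
  by_cases hij : i = j
  · subst hij
    simp at h1
  · rw [Pi.single_eq_of_ne hij] at h1
    simp at h1

theorem ee_inj {i j : Fin d} (h : ee i = ee j) : i = j := by
  by_contra hij
  have h1 := congrFun h i
  simp [ee, hij] at h1

theorem ed_inj {x y : V d} {i j : Fin d} (h : ed x (i, true) = ed y (j, true)) :
    x = y ∧ i = j := by
  have h1 : s(x, x + sv (i, true)) = s(y, y + sv (j, true)) := congrArg Subtype.val h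
  rw [sv_true, sv_true, Sym2.eq_iff] at h1
  rcases h1 with ⟨h1, h2⟩ | ⟨h1, h2⟩
  · subst h1
    exact ⟨rfl, ee_inj (add_left_cancel h2)⟩
  · exfalso
    rw [h1] at h2
    have h3 : ee j + ee i = 0 := by
      have h4 : y + (ee j + ee i) = y + 0 := by rw [← add_assoc, h2, add_zero]
      exact add_left_cancel h4
    exact ee_ne_neg _ _ h3

/-- every edge is `ed x (i, true)` -/
theorem exists_ed (e : Edge d) : ∃ (x : V d) (i : Fin d), e = ed x (i, true) := by
  obtain ⟨e, x, y, he, hxy⟩ := e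
  have key : ∃ a : St d, y = x + sv a := by
    classical
    have h0 : ∃ i, x i ≠ y i := by
      by_contra h
      push Not at h
      have h1 : ∑ i, |x i - y i| = 0 := Finset.sum_eq_zero (fun i _ => by rw [h i]; simp)
      omega
    obtain ⟨i, hi⟩ := h0
    have h1 : |x i - y i| + ∑ l ∈ Finset.univ.erase i, |x l - y l| = 1 :=
      (Finset.add_sum_erase Finset.univ (fun l => |x l - y l|) (Finset.mem_univ i)).trans hxy
    have h2 : 0 ≤ ∑ l ∈ Finset.univ.erase i, |x l - y l| :=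
      Finset.sum_nonneg (fun l _ => abs_nonneg _)
    have h3 : 1 ≤ |x i - y i| := Int.one_le_abs (sub_ne_zero.2 hi)
    have h4 : ∑ l ∈ Finset.univ.erase i, |x l - y l| = 0 := by omega
    have h5 : |x i - y i| = 1 := by omega
    have h6 : ∀ l, l ≠ i → y l = x l := by
      intro l hl
      have h7 := (Finset.sum_eq_zero_iff_of_nonneg (fun l _ => abs_nonneg _)).1 h4 l
        (Finset.mem_erase.2 ⟨hl, Finset.mem_univ l⟩)
      have h8 := abs_eq_zero.1 h7
      omega
    rcases (abs_eq (by norm_num)).1 h5 with h7 | h7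
    · refine ⟨(i, false), ?_⟩
      ext l
      by_cases hl : l = i
      · subst hl
        simp [sv]
        omega
      · simp [sv, h6 l hl, hl]
    · refine ⟨(i, true), ?_⟩
      ext l
      by_cases hl : l = i
      · subst hl
        simp [sv]
        omega
      · simp [sv, h6 l hl, hl]
  obtain ⟨a, rfl⟩ := key
  have h9 : (⟨e, x, x + sv a, he, hxy⟩ : Edge d) = ed x a := Subtype.ext he
  rw [h9]
  rcases a with ⟨i, _ | _⟩
  · exact ⟨x - ee i, i, ed_false x i⟩
  · exact ⟨x, i, rfl⟩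

/-- the base point of an edge -/
noncomputable def bs (e : Edge d) : V d := (exists_ed e).choose

/-- the direction of an edge -/
noncomputable def dr (e : Edge d) : Fin d := (exists_ed e).choose_spec.choose

theorem ed_bs (e : Edge d) : ed (bs e) (dr e, true) = e :=
  (exists_ed e).choose_spec.choose_spec.symm

theorem bs_ed (x : V d) (i : Fin d) : bs (ed x (i, true)) = x := (ed_inj (ed_bs _)).1

/-- codes of *-neighbours -/
abbrev Kd (d : ℕ) : Type := (Fin d → Fin 3) × Fin d

/-- number of codes -/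
def Dl (d : ℕ) : ℕ := 3 ^ d * d

theorem card_Kd : Fintype.card (Kd d) = Dl d := by
  simp [Kd, Dl]

/-- the edge with the code `k` relative to `e` -/
noncomputable def nb (e : Edge d) (k : Kd d) : Edge d :=
  ed (bs e + fun i => ((k.1 i : ℕ) : ℤ) - 1) (k.2, true)

theorem nb_of {e : Edge d} (v : V d) (m : Fin d) (hv : ∀ i, v i = -1 ∨ v i = 0 ∨ v i = 1) :
    ∃ k, nb e k = ed (bs e + v) (m, true) := by
  refine ⟨(fun i => ⟨(v i + 1).toNat, by rcases hv i with h | h | h <;> rw [h] <;> decide⟩, m), ?_⟩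
  unfold nb
  congr 1
  congr 1
  ext i
  show (((v i + 1).toNat : ℕ) : ℤ) - 1 = v i
  rcases hv i with h | h | h <;> rw [h] <;> rfl

theorem nb_self (e : Edge d) : ∃ k, nb e k = e := by
  obtain ⟨k, hk⟩ := nb_of (e := e) 0 (dr e) (fun i => Or.inr (Or.inl rfl))
  exact ⟨k, by rw [hk, add_zero, ed_bs]⟩

theorem ee_val (i l : Fin d) : ee i l = 0 ∨ ee i l = 1 := by
  by_cases h : l = i
  · subst h
    right
    simp [ee]
  · left
    simp [ee, h]

theorem exists_nb {e f : Edge d} (h : Adj2 e f) : ∃ k, nb e k = f := by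
  obtain ⟨x, i, j, hij, he, hf⟩ := h
  have key : ∀ g : Edge d, InSq x i j g → ∃ (t : V d) (m : Fin d), g = ed (x + t) (m, true) ∧
      ∀ l, t l = 0 ∨ t l = 1 := by
    rintro g (rfl | rfl | rfl | rfl)
    · exact ⟨0, i, by rw [add_zero], fun l => Or.inl rfl⟩
    · exact ⟨ee i, j, rfl, ee_val i⟩
    · exact ⟨0, j, by rw [add_zero], fun l => Or.inl rfl⟩
    · exact ⟨ee j, i, rfl, ee_val j⟩
  obtain ⟨t, m, rfl, ht⟩ := key e he
  obtain ⟨t', m', rfl, ht'⟩ := key f hf
  obtain ⟨k, hk⟩ := nb_of (e := ed (x + t) (m, true)) (t' - t) m' (fun l => by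
    rcases ht l with h | h <;> rcases ht' l with h' | h' <;> simp [h, h'])
  refine ⟨k, ?_⟩
  rw [hk, bs_ed]
  congr 1
  abel

/-! ## walks -/

/-- the edges visited after the start -/
noncomputable def tr : Edge d → List (Kd d) → List (Edge d)
  | _, [] => []
  | e, k :: ks => nb e k :: tr (nb e k) ks

theorem tr_append (e : Edge d) (k1 k2 : List (Kd d)) :
    tr e (k1 ++ k2) = tr e k1 ++ tr (k1.foldl nb e) k2 := by
  induction k1 generalizing e with
  | nil => rfl
  | cons k k1 ih =>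
    show nb e k :: tr (nb e k) (k1 ++ k2) = nb e k :: tr (nb e k) k1 ++ _
    rw [ih]
    rfl

theorem split_of_mem {e a : Edge d} {ks : List (Kd d)} (h : a ∈ e :: tr e ks) :
    ∃ k1 k2, ks = k1 ++ k2 ∧ k1.foldl nb e = a := by
  induction ks generalizing e with
  | nil =>
    have h1 : a ∈ [e] := h
    rw [List.mem_singleton] at h1
    exact ⟨[], [], rfl, h1.symm⟩
  | cons k ks ih =>
    rcases List.mem_cons.1 h with h1 | h1
    · exact ⟨[], k :: ks, rfl, h1.symm⟩
    · obtain ⟨k1, k2, h2, h3⟩ := ih (e := nb e k) h1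
      exact ⟨k :: k1, k2, by rw [h2]; rfl, h3⟩

theorem foldl_mem (e : Edge d) (ks : List (Kd d)) : ks.foldl nb e ∈ e :: tr e ks := by
  induction ks generalizing e with
  | nil => exact List.mem_singleton.2 rfl
  | cons k ks ih => exact List.mem_cons_of_mem _ (ih (nb e k))

/-- insert an edge `b` after `a` -/
theorem insert_walk {e a b : Edge d} {ks : List (Kd d)} (ha : a ∈ e :: tr e ks)
    (h1 : ∃ k, nb a k = b) (h2 : ∃ k, nb b k = a) :
    ∃ ks' : List (Kd d), ks'.length = ks.length + 2 ∧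
      (∀ f, f ∈ e :: tr e ks' ↔ f ∈ e :: tr e ks ∨ f = b) := by
  obtain ⟨k1, k2, rfl, h3⟩ := split_of_mem ha
  obtain ⟨ka, hka⟩ := h1
  obtain ⟨kb, hkb⟩ := h2
  refine ⟨k1 ++ (ka :: kb :: k2), by simp; omega, ?_⟩
  intro f
  have h4 : k1.foldl nb e ∈ e :: tr e k1 := foldl_mem e k1
  rw [h3] at h4
  rw [tr_append, tr_append, h3]
  have h5 : tr a (ka :: kb :: k2) = b :: a :: tr a k2 := by
    show nb a ka :: nb (nb a ka) kb :: tr (nb (nb a ka) kb) k2 = _
    rw [hka, hkb]
  rw [h5]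
  simp only [List.mem_cons, List.mem_append] at h4 ⊢
  constructor
  · rintro (h | h | h | h | h)
    · exact Or.inl (Or.inl h)
    · exact Or.inl (Or.inr (Or.inl h))
    · exact Or.inr h
    · rw [h]
      rcases h4 with h4 | h4
      · exact Or.inl (Or.inl h4)
      · exact Or.inl (Or.inr (Or.inl h4))
    · exact Or.inl (Or.inr (Or.inr h))
  · rintro ((h | h | h) | h)
    · exact Or.inl h
    · exact Or.inr (Or.inl h)
    · exact Or.inr (Or.inr (Or.inr (Or.inr h)))
    · exact Or.inr (Or.inr (Or.inl h))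

theorem Clu.closed {cl : Edge d → Prop} {e f : Edge d} (h : f ∈ Clu cl e) : cl f := by
  obtain ⟨h0, h1⟩ := h
  rcases Relation.ReflTransGen.cases_tail h1 with h | ⟨c, _, h, _⟩
  · rw [h]
    exact h0
  · exact h

theorem exit_of {α : Type*} {r : α → α → Prop} {e f : α} (h : Relation.ReflTransGen r e f)
    (L : Set α) (he : e ∈ L) (hf : f ∉ L) : ∃ a b, a ∈ L ∧ b ∉ L ∧ r a b := by
  induction h with
  | refl => exact absurd he hf
  | tail _ hbc ih =>
    rename_i b c _
    by_cases hb : b ∈ L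
    · exact ⟨b, c, hb, hf, hbc⟩
    · exact ih hb

/-- a large cluster contains a long walk with many different edges -/
theorem exists_walk {cl : Edge d → Prop} {e : Edge d} (n : ℕ) (F : Finset (Edge d))
    (hF : n + 1 ≤ F.card) (hFc : ∀ f ∈ F, f ∈ Clu cl e) :
    ∃ ks : List (Kd d), ks.length = 2 * n ∧ (∀ f ∈ e :: tr e ks, cl f) ∧
      n + 1 ≤ (e :: tr e ks).toFinset.card := by
  classical
  induction n with
  | zero =>
    refine ⟨[], rfl, ?_, ?_⟩
    · intro f hf
      have h1 : f ∈ [e] := hf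
      rw [List.mem_singleton] at h1
      obtain ⟨g, hg⟩ := Finset.card_pos.1 (show 0 < F.card by omega)
      rw [h1]
      exact (hFc g hg).1
    · show 1 ≤ ([e] : List (Edge d)).toFinset.card
      simp
  | succ n ih =>
    obtain ⟨ks, hks, hcl, hcard⟩ := ih (by omega)
    rcases Nat.lt_or_ge (n + 1) (e :: tr e ks).toFinset.card with h | h
    · -- stay
      obtain ⟨k, hk⟩ := nb_self e
      obtain ⟨ks', hks', hmem⟩ := insert_walk (e := e) (a := e) (b := e) (ks := ks)
        List.mem_cons_self ⟨k, hk⟩ ⟨k, hk⟩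
      refine ⟨ks', by omega, ?_, ?_⟩
      · intro f hf
        rcases (hmem f).1 hf with h1 | h1
        · exact hcl f h1
        · rw [h1]
          exact hcl e List.mem_cons_self
      · refine le_trans h (Finset.card_le_card ?_)
        intro f hf
        rw [List.mem_toFinset] at hf ⊢
        exact (hmem f).2 (Or.inl hf)
    · have h1 : ∃ f ∈ F, f ∉ (e :: tr e ks).toFinset := by
        by_contra hc
        push Not at hc
        have := Finset.card_le_card (show F ⊆ (e :: tr e ks).toFinset from hc)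
        omega
      obtain ⟨f, hf, hfn⟩ := h1
      have h2 : Rel cl e f := (hFc f hf).2
      have h3 : ∃ a b, a ∈ e :: tr e ks ∧ b ∉ e :: tr e ks ∧ cl b ∧ Adj2 a b := by
        rw [List.mem_toFinset] at hfn
        exact exit_of h2 {g | g ∈ e :: tr e ks} List.mem_cons_self hfn
      obtain ⟨a, b, ha, hb, hclb, hab⟩ := h3
      obtain ⟨ks', hks', hmem⟩ := insert_walk ha (exists_nb hab) (exists_nb hab.symm)
      refine ⟨ks', by omega, ?_, ?_⟩
      · intro g hg
        rcases (hmem g).1 hg with h4 | h4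
        · exact hcl g h4
        · rw [h4]
          exact hclb
      · have h4 : (insert b (e :: tr e ks).toFinset) ⊆ (e :: tr e ks').toFinset := by
          intro g hg
          rw [List.mem_toFinset]
          rcases Finset.mem_insert.1 hg with h5 | h5
          · exact (hmem g).2 (Or.inr h5)
          · exact (hmem g).2 (Or.inl (List.mem_toFinset.1 h5))
        have h5 := Finset.card_le_card h4
        rw [Finset.card_insert_of_notMem (fun h6 => hb (List.mem_toFinset.1 h6))] at h5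
        omega

/-! ## the Peierls bound -/

section

variable {Ω : Type*} [MeasurableSpace Ω] {P : Measure Ω} {X : Edge d → Ω → ℝ}

theorem prob_closed (hi : iIndepFun X P)
    {C : Set ℝ} (hC : MeasurableSet C) {ε : ℝ} (hε : ∀ e, P.real (X e ⁻¹' C) ≤ ε)
    (hε0 : 0 ≤ ε) (hε1 : ε ≤ 1) (S : Finset (Edge d)) {n : ℕ} (hn : n ≤ S.card) :
    P.real (⋂ e ∈ S, X e ⁻¹' C) ≤ ε ^ n := by
  have h1 := hi.measure_inter_preimage_eq_mul S (sets := fun _ => C) (fun _ _ => hC)
  rw [measureReal_def, h1, ENNReal.toReal_prod]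
  calc ∏ e ∈ S, (P (X e ⁻¹' C)).toReal ≤ ∏ _e ∈ S, ε :=
        Finset.prod_le_prod (fun e _ => ENNReal.toReal_nonneg) (fun e _ => hε e)
    _ = ε ^ S.card := Finset.prod_const _
    _ ≤ ε ^ n := pow_le_pow_of_le_one hε0 hε1 hn

open Classical in
/-- **the Peierls bound**: the *-cluster of closed edges of the edge `e` has more than `n` edges with
probability at most `Δ ^ (2 * n) * ε ^ (n + 1)` -/
theorem peierls [IsFiniteMeasure P] (hi : iIndepFun X P) {C : Set ℝ} (hC : MeasurableSet C) {ε : ℝ}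
    (hε : ∀ e, P.real (X e ⁻¹' C) ≤ ε) (hε0 : 0 ≤ ε) (hε1 : ε ≤ 1) (e : Edge d) (n : ℕ) :
    P.real {ω | ∃ F : Finset (Edge d), n + 1 ≤ F.card ∧
      ∀ f ∈ F, f ∈ Clu (fun f => X f ω ∈ C) e} ≤ (Dl d : ℝ) ^ (2 * n) * ε ^ (n + 1) := by
  set T : (Fin (2 * n) → Kd d) → Finset (Edge d) := fun c => (e :: tr e (List.ofFn c)).toFinset
    with hT
  set G : Finset (Fin (2 * n) → Kd d) := Finset.univ.filter (fun c => n + 1 ≤ (T c).card) with hG
  have hsub : {ω | ∃ F : Finset (Edge d), n + 1 ≤ F.card ∧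
      ∀ f ∈ F, f ∈ Clu (fun f => X f ω ∈ C) e} ⊆ ⋃ c ∈ G, ⋂ f ∈ T c, X f ⁻¹' C := by
    rintro ω ⟨F, hF, hFc⟩
    obtain ⟨ks, h1, h2, h3⟩ := exists_walk n F hF hFc
    obtain ⟨c, hc⟩ : ∃ c : Fin (2 * n) → Kd d, List.ofFn c = ks := by
      refine ⟨fun i => ks.get (Fin.cast h1.symm i), ?_⟩
      apply List.ext_get
      · simp [h1]
      · intro i hi1 hi2
        simp
    have h4 : T c = (e :: tr e ks).toFinset := by
      rw [hT]
      simp only
      rw [hc]
    refine Set.mem_iUnion₂.2 ⟨c, ?_, Set.mem_iInter₂.2 (fun f hf => ?_)⟩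
    · rw [hG, Finset.mem_filter]
      refine ⟨Finset.mem_univ _, ?_⟩
      rw [h4]
      convert h3
    · rw [h4, List.mem_toFinset] at hf
      exact h2 f hf
  calc P.real _ ≤ P.real (⋃ c ∈ G, ⋂ f ∈ T c, X f ⁻¹' C) :=
        measureReal_mono hsub (measure_ne_top _ _)
    _ ≤ ∑ c ∈ G, P.real (⋂ f ∈ T c, X f ⁻¹' C) := measureReal_biUnion_finset_le _ _
    _ ≤ ∑ _c ∈ G, ε ^ (n + 1) := Finset.sum_le_sum (fun c hc => by
        rw [hG, Finset.mem_filter] at hc
        exact prob_closed hi hC hε hε0 hε1 _ hc.2)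
    _ = (G.card : ℝ) * ε ^ (n + 1) := by rw [Finset.sum_const, nsmul_eq_mul]
    _ ≤ _ := by
        have h5 : G.card ≤ Dl d ^ (2 * n) := by
          refine (Finset.card_filter_le _ _).trans ?_
          rw [Finset.card_univ, Fintype.card_fun, card_Kd, Fintype.card_fin]
        have h6 : (G.card : ℝ) ≤ (Dl d : ℝ) ^ (2 * n) := by exact_mod_cast h5
        exact mul_le_mul_of_nonneg_right h6 (pow_nonneg hε0 _)

theorem Dl_pos (e : Edge d) : 1 ≤ Dl d := by
  have h1 := dr e
  have h2 : 0 < d := h1.pos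
  exact Nat.succ_le_of_lt (Nat.mul_pos (by positivity) h2)

/-- **the Peierls bound**, simple form -/
theorem peierls' [IsProbabilityMeasure P] (hi : iIndepFun X P) {C : Set ℝ} (hC : MeasurableSet C)
    {ε : ℝ} (hε : ∀ e, P.real (X e ⁻¹' C) ≤ ε) (hε0 : 0 ≤ ε) (hε1 : ε ≤ 1) (e : Edge d) (n : ℕ) :
    P.real {ω | ∃ F : Finset (Edge d), n ≤ F.card ∧
      ∀ f ∈ F, f ∈ Clu (fun f => X f ω ∈ C) e} ≤ ((Dl d : ℝ) ^ 2 * ε) ^ n := by
  have hD : (1 : ℝ) ≤ Dl d := by exact_mod_cast Dl_pos e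
  rcases Nat.eq_zero_or_pos n with h | h
  · subst h
    rw [pow_zero]
    exact measureReal_le_one
  · obtain ⟨n, rfl⟩ := Nat.exists_eq_succ_of_ne_zero h.ne'
    refine (peierls hi hC hε hε0 hε1 e n).trans ?_
    rw [Nat.succ_eq_add_one, mul_pow, ← pow_mul]
    refine mul_le_mul_of_nonneg_right ?_ (pow_nonneg hε0 _)
    exact pow_le_pow_right₀ hD (by omega)

/-- the same with the number of edges of the cluster -/
theorem peierls_ncard [IsProbabilityMeasure P] (hi : iIndepFun X P) {C : Set ℝ}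
    (hC : MeasurableSet C) {ε : ℝ} (hε : ∀ e, P.real (X e ⁻¹' C) ≤ ε) (hε0 : 0 ≤ ε) (hε1 : ε ≤ 1)
    (e : Edge d) (n : ℕ) :
    P.real {ω | n ≤ (Clu (fun f => X f ω ∈ C) e).ncard} ≤ ((Dl d : ℝ) ^ 2 * ε) ^ n := by
  rcases Nat.eq_zero_or_pos n with h | h
  · subst h
    rw [pow_zero]
    exact measureReal_le_one
  · refine (measureReal_mono (fun ω hω => ?_) (measure_ne_top _ _)).trans
      (peierls' hi hC hε hε0 hε1 e n)
    have h1 : n ≤ (Clu (fun f => X f ω ∈ C) e).ncard := hω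
    have h2 : (Clu (fun f => X f ω ∈ C) e).Finite := Set.finite_of_ncard_pos (by omega)
    refine ⟨h2.toFinset, ?_, fun f hf => h2.mem_toFinset.1 hf⟩
    rwa [← Set.ncard_eq_toFinset_card _ h2]

/-- the clusters are finite -/
theorem ae_finite [IsProbabilityMeasure P] (hi : iIndepFun X P) {C : Set ℝ} (hC : MeasurableSet C)
    {ε : ℝ} (hε : ∀ e, P.real (X e ⁻¹' C) ≤ ε) (hε0 : 0 ≤ ε) (hε1 : (Dl d : ℝ) ^ 2 * ε < 1) :
    ∀ᵐ ω ∂P, ∀ e : Edge d, (Clu (fun f => X f ω ∈ C) e).Finite := by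
  have : Countable (Edge d) := Subtype.countable
  rw [ae_all_iff]
  intro e
  have hD : (1 : ℝ) ≤ Dl d := by exact_mod_cast Dl_pos e
  have hε2 : ε ≤ 1 := by
    by_contra h
    push Not at h
    have : (1 : ℝ) ≤ (Dl d : ℝ) ^ 2 := one_le_pow₀ hD
    nlinarith
  have h0 : 0 ≤ (Dl d : ℝ) ^ 2 * ε := by positivity
  have key : ∀ n : ℕ, P.real {ω | ¬ (Clu (fun f => X f ω ∈ C) e).Finite} ≤
      ((Dl d : ℝ) ^ 2 * ε) ^ n := by
    intro n
    refine (measureReal_mono (fun ω hω => ?_) (measure_ne_top _ _)).trans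
      (peierls' hi hC hε hε0 hε2 e n)
    have h1 : (Clu (fun f => X f ω ∈ C) e).Infinite := hω
    obtain ⟨F, hF, hc⟩ := h1.exists_subset_card_eq n
    exact ⟨F, hc.ge, fun f hf => hF hf⟩
  have h2 : P.real {ω | ¬ (Clu (fun f => X f ω ∈ C) e).Finite} ≤ 0 :=
    ge_of_tendsto' (tendsto_pow_atTop_nhds_zero_of_lt_one h0 hε1) key
  have h3 : P.real {ω | ¬ (Clu (fun f => X f ω ∈ C) e).Finite} = 0 :=
    le_antisymm h2 measureReal_nonneg
  rw [measureReal_eq_zero_iff] at h3
  exact h3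

end

end Pool.Agent.Helper2.PG
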